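import Pool.Agent.P.MP_08fd93_co.FZ2.Root

/-! In depth two all closed walks of nonzero class have length at least four. -/

set_option autoImplicit false

namespace Pool.Agent.P.MP_08fd93_co.FZ2

open OV FZ PkDNP Lat2P

theorem neg_eq {D : ℤ × ℤ → ℕ} (hD : Nrm D) (a : ℤ × ℤ) : D (-a) = D a := by
  have := hD.smul (-1) a
  simpa using this

/-- A class of length three is primitive. -/
theorem prim3 {D : ℤ × ℤ → ℕ} (hD : Nrm D) {c : ℤ × ℤ} (hc : c ≠ 0) (h : D c ≤ 3) :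
    ∃ b, det c b = 1 := by
  have hg : 0 < Int.gcd c.1 c.2 := by
    rw [Int.gcd_pos_iff]
    by_contra h
    push Not at h
    exact hc (Prod.ext h.1 h.2)
  obtain ⟨m, n, hmn, h1, h1'⟩ := Int.exists_gcd_one hg
  have e : c = ((Int.gcd c.1 c.2 : ℕ) : ℤ) • ((m, n) : ℤ × ℤ) := by
    ext
    · simp only [Prod.smul_fst, smul_eq_mul]
      rw [mul_comm]
      exact h1
    · simp only [Prod.smul_snd, smul_eq_mul]
      rw [mul_comm]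
      exact h1'
  have hne : ((m, n) : ℤ × ℤ) ≠ 0 := by
    intro h0
    rw [h0, smul_zero] at e
    exact hc e
  have h3 := hD.smul ((Int.gcd c.1 c.2 : ℕ) : ℤ) (m, n)
  rw [← e, Int.natAbs_natCast] at h3
  have h5 := hD.ge _ hne
  have h7 : Int.gcd c.1 c.2 = 1 := by
    by_contra h8
    have h9 : 2 ≤ Int.gcd c.1 c.2 := by omega
    nlinarith
  refine ⟨(-(Int.gcdB c.1 c.2), Int.gcdA c.1 c.2), ?_⟩
  have := Int.gcd_eq_gcd_ab c.1 c.2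
  rw [h7] at this
  unfold det
  simp only
  push_cast at this
  linarith

/-- If every even point has depth at least two and there is a nonzero even point, then all
lengths are at least four. -/
theorem four {D : ℤ × ℤ → ℕ} (hD : Nrm D)
    (H2 : ∀ η : ℤ × ℤ →+ ℤ, (∀ a, Even (η a)) → (∀ a, η a ≤ (D a : ℤ)) →
      ∀ c, c ≠ 0 → η c + 2 ≤ (D c : ℤ))
    {η : ℤ × ℤ →+ ℤ} (hev : ∀ a, Even (η a)) (hle : ∀ a, η a ≤ (D a : ℤ)) {c : ℤ × ℤ}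
    (hc : η c ≠ 0) (a : ℤ × ℤ) (ha : a ≠ 0) : 4 ≤ D a := by
  by_contra h4
  have h3 := hD.ge a ha
  obtain ⟨b, hb⟩ := prim3 hD ha (by omega)
  obtain ⟨V, hV, hVa⟩ := sup hD hb
  have lin : ∀ (p : ℤ × ℤ →+ ℤ) (z : ℤ × ℤ), p z = det z b * p a + det a z * p b := by
    intro p z
    conv_lhs => rw [← dec hb z]
    rw [map_add, map_zsmul, map_zsmul, smul_eq_mul, smul_eq_mul]
  have a0 : η a = 0 := by
    have k1 := H2 η hev hle a ha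
    have k2 := H2 η hev hle (-a) (neg_ne_zero.2 ha)
    rw [neg_eq hD, map_neg] at k2
    obtain ⟨t, ht⟩ := hev a
    omega
  have b0 : η b ≠ 0 := fun e => hc (by rw [lin η c, a0, e]; simp)
  have b2 : 2 ≤ |η b| := by
    obtain ⟨t, ht⟩ := hev b
    rcases abs_cases (η b) with k | k <;> omega
  have bd : ∀ z, 2 * |det a z| ≤ (D z : ℤ) := by
    intro z
    have k1 := hle z
    have k2 := hle (-z)
    rw [neg_eq hD, map_neg] at k2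
    have k3 : |η z| ≤ (D z : ℤ) := abs_le.2 ⟨by omega, k1⟩
    rw [lin η z, a0, mul_zero, zero_add, abs_mul] at k3
    nlinarith [abs_nonneg (det a z)]
  obtain ⟨T, hT, hT'⟩ : ∃ T : ℤ, Even T ∧ |3 * T - 2 * V b| ≤ 2 := by
    refine ⟨2 * ((V b + 1) / 3), even_two_mul _, abs_le.2 ⟨?_, ?_⟩⟩ <;> omega
  have le' : ∀ z, mk a b 2 T z ≤ (D z : ℤ) := by
    intro z
    have k1 := hV z
    rw [lin V z, hVa] at k1
    have k2 := bd z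
    have k3 : (D a : ℤ) = 3 := by omega
    rw [k3] at k1
    have k4 : det a z * (3 * T - 2 * V b) ≤ |det a z| * 2 := by
      refine (le_abs_self _).trans ?_
      rw [abs_mul]
      exact mul_le_mul_of_nonneg_left hT' (abs_nonneg _)
    rw [mk_apply]
    nlinarith
  have := H2 _ (fun z => by
    rw [mk_apply]
    exact (even_two.mul_left _).add (hT.mul_left _)) le' a ha
  rw [mk_apply, hb] at this
  have e0 : det a a = 0 := by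
    unfold det
    ring
  rw [e0] at this
  omega

/-- The three cases of the depth, with the bound four in depth two. -/
theorem lat4 {D : ℤ × ℤ → ℕ} (hD : Nrm D) :
    ∃ η : ℤ × ℤ →+ ℤ, (∀ a, Even (η a)) ∧
      (((∀ a, η a ≤ (D a : ℤ)) ∧ ∃ c, c ≠ 0 ∧ (D c : ℤ) = η c) ∨
        ((∀ a, a ≠ 0 → η a + 1 ≤ (D a : ℤ)) ∧ ∃ c, c ≠ 0 ∧ (D c : ℤ) = η c + 1) ∨
        ((∀ a, a ≠ 0 → η a + 2 ≤ (D a : ℤ)) ∧ (∀ a, a ≠ 0 → 4 ≤ D a) ∧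
          ∃ c1 c2, det c1 c2 ≠ 0 ∧ (D c1 : ℤ) = η c1 + 2 ∧ (D c2 : ℤ) = η c2 + 2)) := by
  by_cases h0 : ∃ η : ℤ × ℤ →+ ℤ, (∀ a, Even (η a)) ∧ (∀ a, η a ≤ (D a : ℤ)) ∧
      ∃ c, c ≠ 0 ∧ (D c : ℤ) = η c
  · obtain ⟨η, h1, h2, h3⟩ := h0
    exact ⟨η, h1, Or.inl ⟨h2, h3⟩⟩
  have n0 : ∀ η : ℤ × ℤ →+ ℤ, (∀ a, Even (η a)) → (∀ a, η a ≤ (D a : ℤ)) →
      ∀ c, c ≠ 0 → η c + 1 ≤ (D c : ℤ) := by
    intro η h1 h2 c hc
    by_contra h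
    exact h0 ⟨η, h1, h2, c, hc, by have := h2 c; omega⟩
  by_cases h1 : ∃ η : ℤ × ℤ →+ ℤ, (∀ a, Even (η a)) ∧ (∀ a, η a ≤ (D a : ℤ)) ∧
      ∃ c, c ≠ 0 ∧ (D c : ℤ) = η c + 1
  · obtain ⟨η, a1, a2, a3⟩ := h1
    exact ⟨η, a1, Or.inr (Or.inl ⟨n0 η a1 a2, a3⟩)⟩
  have n1 : ∀ η : ℤ × ℤ →+ ℤ, (∀ a, Even (η a)) → (∀ a, η a ≤ (D a : ℤ)) →
      ∀ c, c ≠ 0 → η c + 2 ≤ (D c : ℤ) := by
    intro η a1 a2 c hc
    by_contra h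
    exact h1 ⟨η, a1, a2, c, hc, by have := n0 η a1 a2 c hc; omega⟩
  obtain ⟨η, a1, a2, c1, c2, hd, e1, e2⟩ := lat2 hD n1
  have hc1 : c1 ≠ 0 := by rintro rfl; simp [det] at hd
  have := hD.ge c1 hc1
  exact ⟨η, a1, Or.inr (Or.inr ⟨n1 η a1 a2, four hD n1 a1 a2 (c := c1) (by omega),
    c1, c2, hd, e1, e2⟩)⟩

variable {J : Type} {Γ : SimpleGraph (Vx J)}

/-- The root data in the three depths, with the bound four in depth two. -/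
theorem root4 [Fintype J] (hJ : Nonempty J) (hG : Good Γ) :
    ∃ η : ℤ × ℤ →+ ℤ, (∀ a, Even (η a)) ∧
      (((∀ a, η a ≤ (OV.DL Γ a : ℤ)) ∧ ∃ c l, c ≠ 0 ∧ Ln Γ c l ∧ (OV.DL Γ c : ℤ) = η c) ∨
        ((∀ a, a ≠ 0 → η a + 1 ≤ (OV.DL Γ a : ℤ)) ∧
          ∃ c l, c ≠ 0 ∧ Ln Γ c l ∧ (OV.DL Γ c : ℤ) = η c + 1) ∨
        ((∀ a, a ≠ 0 → η a + 2 ≤ (OV.DL Γ a : ℤ)) ∧ (∀ a, a ≠ 0 → 4 ≤ OV.DL Γ a) ∧
          ∃ c1 c2 l1 l2, det c1 c2 ≠ 0 ∧ (OV.DL Γ c1 : ℤ) = η c1 + 2 ∧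
            (OV.DL Γ c2 : ℤ) = η c2 + 2 ∧ Ln Γ c1 l1 ∧ Ln Γ c2 l2 ∧ l1 0 = l2 0 ∧
            ∀ s t, s < 0 → l1 s ≠ l2 t ∨ 0 < t)) := by
  obtain ⟨η, hev, h⟩ := lat4 (all_Nrm J Γ hJ hG).2
  refine ⟨η, hev, ?_⟩
  rcases h with ⟨h1, c, hc, h2⟩ | ⟨h1, c, hc, h2⟩ | ⟨h1, h4, c1, c2, hd, h2, h3⟩
  · obtain ⟨l, hl⟩ := ln_ex hJ hG hc
    exact Or.inl ⟨h1, c, l, hc, hl, h2⟩
  · obtain ⟨l, hl⟩ := ln_ex hJ hG hc
    exact Or.inr (Or.inl ⟨h1, c, l, hc, hl, h2⟩)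
  · obtain ⟨l1, l2, h⟩ := root2 hJ hG hd
    exact Or.inr (Or.inr ⟨h1, h4, c1, c2, l1, l2, hd, h2, h3, h⟩)

end Pool.Agent.P.MP_08fd93_co.FZ2
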