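import Pool.Agent.P.MP_08fd93_co.OV.PkLatA
import Pool.Agent.P.MP_08fd93_co.OV.PkLatB
import Pool.Agent.P.MP_08fd93_co.OV.PkPLat

/-! If every even point of the dual polygon has depth at least two, then some even point has two
independent classes of slack two. -/

set_option autoImplicit false

namespace Pool.Agent.P.MP_08fd93_co.FZ2

open OV

namespace Lat2P

/-- Integer points of the polygon with support function `F`, seen from a vertex. -/
def K (F : ℤ → ℤ → ℤ) (s w : ℤ) : Prop := ∀ x y, y * w - x * s ≤ F x y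

structure Hy (F : ℤ → ℤ → ℤ) : Prop where
  att : ∀ x y x' y', x * y' - y * x' = 1 → ∃ s w, K F s w ∧ y * w - x * s = F x y
  dep : ∀ s w, Even s → Odd w → K F s w → ∀ x y, (x ≠ 0 ∨ y ≠ 0) → y * w - x * s + 2 ≤ F x y
  k0 : K F 0 0
  f0 : F 1 0 = 0

def Gd (F : ℤ → ℤ → ℤ) : Prop := ∃ s w x y x' y', Even s ∧ Odd w ∧ K F s w ∧
  x * y' - y * x' ≠ 0 ∧ F x y = y * w - x * s + 2 ∧ F x' y' = y' * w - x' * s + 2

variable {F : ℤ → ℤ → ℤ}

theorem hull {s1 w1 s2 w2 s3 w3 s w : ℤ} (h1 : K F s1 w1) (h2 : K F s2 w2) (h3 : K F s3 w3)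
    (a b c : ℤ) (ha : 0 ≤ a) (hb : 0 ≤ b) (hc : 0 ≤ c) (hN : 0 < a + b + c)
    (es : (a + b + c) * s = a * s1 + b * s2 + c * s3)
    (ew : (a + b + c) * w = a * w1 + b * w2 + c * w3) : K F s w := by
  intro x y
  have b1 := mul_le_mul_of_nonneg_left (h1 x y) ha
  have b2 := mul_le_mul_of_nonneg_left (h2 x y) hb
  have b3 := mul_le_mul_of_nonneg_left (h3 x y) hc
  have e : (a + b + c) * (y * w - x * s) =
      a * (y * w1 - x * s1) + b * (y * w2 - x * s2) + c * (y * w3 - x * s3) := by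
    linear_combination y * ew - x * es
  have : (a + b + c) * (y * w - x * s) ≤ (a + b + c) * F x y := by
    rw [e]; linarith
  exact le_of_mul_le_mul_left this hN

theorem Hy.pos (H : Hy F) {s w : ℤ} (h : K F s w) : 0 ≤ s := by
  have := h 1 0
  rw [H.f0] at this
  linarith

theorem Hy.zero (H : Hy F) {w : ℤ} (h : K F 0 w) : w ≤ 0 := by
  by_contra hw
  have h1 : K F 0 1 := hull H.k0 h h (w - 1) 1 0 (by omega) (by omega) le_rfl (by omega)
    (by ring) (by ring)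
  have := H.dep 0 1 (by simp) odd_one h1 1 0 (Or.inl one_ne_zero)
  rw [H.f0] at this
  omega

theorem top {s w : ℤ} (h : K F s w) : w ≤ F 0 1 := by
  have := h 0 1
  linarith

/-- Shear of the second coordinate. -/
def sh (t : ℤ) (F : ℤ → ℤ → ℤ) : ℤ → ℤ → ℤ := fun x y => F (x + t * y) y

theorem k_sh {t s w : ℤ} : K (sh t F) s w ↔ K F s (w + t * s) := by
  constructor
  · intro h x y
    have := h (x - t * y) y
    simp only [sh, sub_add_cancel] at this
    linarith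
  · intro h x y
    have := h (x + t * y) y
    simp only [sh]
    linarith

theorem Hy.sh (H : Hy F) (t : ℤ) : Hy (sh t F) where
  att x y x' y' h := by
    obtain ⟨s, w, h1, h2⟩ := H.att (x + t * y) y (x' + t * y') y' (by linear_combination h)
    refine ⟨s, w - t * s, k_sh.mpr (by simpa using h1), ?_⟩
    simp only [Lat2P.sh]
    linarith
  dep s w hs hw h x y hxy := by
    have := H.dep s (w + t * s) hs (hw.add_even (hs.mul_left t)) (k_sh.mp h) (x + t * y) y (by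
      by_cases hy : y = 0
      · subst hy
        simpa using hxy
      · exact Or.inr hy)
    simp only [Lat2P.sh]
    linarith
  k0 := k_sh.mpr (by simpa using H.k0)
  f0 := by simpa [Lat2P.sh] using H.f0

theorem gd_sh {t : ℤ} (h : Gd (sh t F)) : Gd F := by
  obtain ⟨s, w, x, y, x', y', hs, hw, hk, hd, e1, e2⟩ := h
  simp only [sh] at e1 e2
  refine ⟨s, w + t * s, x + t * y, y, x' + t * y', y', hs, hw.add_even (hs.mul_left t),
    k_sh.mp hk, fun h => hd (by linear_combination h), by linarith, by linarith⟩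

/-- Shear of the first coordinate. -/
def ro (m : ℤ) (F : ℤ → ℤ → ℤ) : ℤ → ℤ → ℤ := fun x y => F x (y + m * x)

theorem k_ro {m s w : ℤ} : K (ro m F) s w ↔ K F (s + m * w) w := by
  constructor
  · intro h x y
    have := h x (y - m * x)
    simp only [ro, sub_add_cancel] at this
    linarith
  · intro h x y
    have := h x (y + m * x)
    simp only [ro]
    linarith

theorem Hy.ro (H : Hy F) {m : ℤ} (hm : Even m) (h0 : F 1 m = 0) : Hy (ro m F) where
  att x y x' y' h := by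
    obtain ⟨s, w, h1, h2⟩ := H.att x (y + m * x) x' (y' + m * x') (by linear_combination h)
    refine ⟨s - m * w, w, k_ro.mpr (by simpa using h1), ?_⟩
    simp only [Lat2P.ro]
    linarith
  dep s w hs hw h x y hxy := by
    have := H.dep (s + m * w) w (hs.add (hm.mul_right w)) hw (k_ro.mp h) x (y + m * x) (by
      by_cases hx : x = 0
      · subst hx
        simpa using hxy
      · exact Or.inl hx)
    simp only [Lat2P.ro]
    linarith
  k0 := k_ro.mpr (by simpa using H.k0)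
  f0 := by simpa [Lat2P.ro] using h0

theorem gd_ro {m : ℤ} (hm : Even m) (h : Gd (ro m F)) : Gd F := by
  obtain ⟨s, w, x, y, x', y', hs, hw, hk, hd, e1, e2⟩ := h
  simp only [ro] at e1 e2
  refine ⟨s + m * w, w, x, y + m * x, x', y' + m * x', hs.add (hm.mul_right w), hw,
    k_ro.mp hk, fun h => hd (by linear_combination h), by linarith, by linarith⟩

theorem normal {t0 : ℤ} (h : K F 2 (2 * t0 - 1)) :
    ∃ t, t0 ≤ t ∧ K (sh t F) 2 (-1) ∧ ¬ K (sh t F) 2 1 := by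
  obtain ⟨t, h1, h2⟩ := Int.exists_greatest_of_bdd (P := fun t => K F 2 (2 * t - 1))
    ⟨|F 0 1| + 1, fun z hz => by
      have := top hz
      have := le_abs_self (F 0 1)
      have := abs_nonneg (F 0 1)
      omega⟩ ⟨t0, h⟩
  refine ⟨t, h2 t0 h, k_sh.mpr ?_, fun h3 => ?_⟩
  · rw [show -1 + t * 2 = 2 * t - 1 by ring]
    exact h1
  · have := h2 (t + 1) (by
      rw [show 2 * (t + 1) - 1 = 1 + t * 2 by ring]
      exact k_sh.mp h3)
    omega

theorem case1 (H : Hy F) (k2 : K F 2 (-1)) (n2 : ¬ K F 2 1) {o0 : ℤ} (h0 : 1 ≤ o0)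
    (k1 : K F 1 o0) : Gd F := by
  obtain ⟨o, h1, h2⟩ := Int.exists_greatest_of_bdd (P := fun o => K F 1 o)
    ⟨F 0 1, fun z hz => top hz⟩ ⟨o0, k1⟩
  have ho : 1 ≤ o := h0.trans (h2 o0 k1)
  obtain ⟨s, w, hk, e⟩ := H.att (1 - o) 1 (-1) 0 (by ring)
  have lo := h1 (1 - o) 1
  have up : w + (o - 1) * s ≤ 2 * o - 1 := by
    have hs := H.pos hk
    rcases (by omega : s = 0 ∨ s = 1 ∨ 2 ≤ s) with h | h | h
    · subst h
      have := H.zero hk
      omega
    · subst h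
      have := h2 w hk
      omega
    · by_contra hc
      exact n2 (hull k2 h1 hk ((s - 2) * o + w - s + 1) (2 * (s - 2)) 2 (by nlinarith) (by omega)
        (by omega) (by nlinarith) (by ring) (by ring))
  refine ⟨2, -1, 1, 0, 1 - o, 1, by simp, by simp, k2, by simp, by simp [H.f0], by linarith⟩

theorem step (H : Hy F) (k2 : K F 2 (-1)) (n2 : ¬ K F 2 1)
    (ih : ∀ F', Hy F' → K F' 2 (-1) → ¬ K F' 2 1 → F' 0 1 < F 0 1 → Gd F') : Gd F := by
  by_cases c1 : ∃ o, 1 ≤ o ∧ K F 1 o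
  · obtain ⟨o, h0, k1⟩ := c1
    exact case1 H k2 n2 h0 k1
  have hM := H.dep 2 (-1) (by simp) (by simp) k2 0 1 (Or.inr one_ne_zero)
  by_cases c2 : F 0 1 = 1
  · exact ⟨2, -1, 1, 0, 0, 1, by simp, by simp, k2, by simp, by simp [H.f0], by simp [c2]⟩
  obtain ⟨s0, w0, hk, e⟩ := H.att 0 1 (-1) 0 (by ring)
  have hw : 2 ≤ w0 := by omega
  have hs : 2 ≤ s0 := by
    have := H.pos hk
    rcases (by omega : s0 = 0 ∨ s0 = 1 ∨ 2 ≤ s0) with h | h | h
    · subst h
      have := H.zero hk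
      omega
    · subst h
      exact absurd ⟨w0, by omega, hk⟩ c1
    · exact h
  have key : ∀ j : ℤ, 0 ≤ j → s0 ≤ j * w0 → (j - 2) * (w0 + 1) ≤ 2 * s0 - 4 → K F j 1 := by
    intro j j0 j1 j2
    exact hull hk k2 H.k0 (j + 2) (j * w0 - s0) (2 * s0 - 4 - (j - 2) * (w0 + 1)) (by omega)
      (by omega) (by omega) (by nlinarith) (by ring) (by ring)
  have hs2 : 2 * w0 < s0 := by
    by_contra hc
    exact n2 (key 2 (by omega) (by omega) (by omega))
  obtain ⟨k, hk1, hk2⟩ := Int.exists_least_of_bdd (P := fun k => s0 ≤ 2 * k * w0)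
    ⟨0, fun z hz => by
      by_contra hc
      have : z * w0 ≤ 0 := mul_nonpos_of_nonpos_of_nonneg (by omega) (by omega)
      linarith⟩ ⟨s0, by nlinarith⟩
  have hk3 : 2 * (k - 1) * w0 < s0 := by
    by_contra hc
    have := hk2 (k - 1) (by omega)
    omega
  have hk4 : 2 ≤ k := by
    by_contra hc
    have : k * w0 ≤ 1 * w0 := mul_le_mul_of_nonneg_right (by omega) (by omega)
    linarith
  have kk : K F (2 * k) 1 := key (2 * k) (by omega) hk1 (by
    have : 1 * 1 ≤ (k - 1) * (w0 - 1) := mul_le_mul (by omega) (by omega) (by omega) (by omega)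
    nlinarith)
  obtain ⟨i, hi1, hi2⟩ := Int.exists_least_of_bdd (P := fun k => K F (2 * k) 1)
    ⟨0, fun z hz => by
      have := H.pos hz
      omega⟩ ⟨k, kk⟩
  have hi : 1 ≤ i := by
    have := H.pos hi1
    by_contra hc
    have h0 : i = 0 := by omega
    subst h0
    have := H.zero (by simpa using hi1)
    omega
  have hm : Even (2 * (i - 1)) := even_two_mul _
  have f0 : F 1 (2 * (i - 1)) = 0 := by
    obtain ⟨s, w, h1, h2⟩ := H.att 1 (2 * (i - 1)) 0 1 (by ring)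
    have lo := H.k0 1 (2 * (i - 1))
    have hs := H.pos h1
    by_contra hc
    have h3 : 1 ≤ 2 * (i - 1) * w - s := by omega
    have h4 : 1 ≤ w := by
      by_contra h5
      have : 2 * (i - 1) * w ≤ 0 := mul_nonpos_of_nonneg_of_nonpos (by omega) (by omega)
      omega
    have := hi2 (i - 1) (hull h1 hi1 H.k0 2 (2 * (i - 1) * w - s) (2 * (w - 1)) (by omega)
      (by omega) (by omega) (by omega) (by ring) (by ring))
    omega
  have H1 := H.ro hm f0
  have k3 : K (ro (2 * (i - 1)) F) 2 (2 * 1 - 1) := k_ro.mpr (by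
    rw [show (2 : ℤ) + 2 * (i - 1) * (2 * 1 - 1) = 2 * i by ring]
    simpa using hi1)
  obtain ⟨t, ht, k4, n4⟩ := normal k3
  refine gd_ro hm (gd_sh (ih _ (H1.sh t) k4 n4 ?_))
  obtain ⟨s, w, h1, h2⟩ := (H1.sh t).att 0 1 (-1) 0 (by ring)
  have h3 := top (k_ro.mp (k_sh.mp h1))
  have h4 := (H1.sh t).pos h1
  rcases (by omega : s = 0 ∨ 1 ≤ s) with h | h
  · subst h
    have := (H1.sh t).zero h1
    omega
  · have : 1 * 1 ≤ t * s := mul_le_mul ht h (by omega) (by omega)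
    omega

theorem main (n : ℕ) : ∀ F, Hy F → K F 2 (-1) → ¬ K F 2 1 → F 0 1 < n → Gd F := by
  induction n with
  | zero =>
    intro F H _ _ h
    have := top H.k0
    omega
  | succ n ih =>
    intro F H k2 n2 h
    exact step H k2 n2 fun F' H' a b c => ih F' H' a b (by omega)

theorem gd (H : Hy F) {w : ℤ} (hw : Odd w) (h : K F 2 w) : Gd F := by
  obtain ⟨r, hr⟩ := hw
  obtain ⟨t, -, k2, n2⟩ := normal (F := F) (t0 := r + 1) (by
    rw [show 2 * (r + 1) - 1 = w by omega]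
    exact h)
  exact gd_sh (main ((sh t F 0 1).toNat + 1) _ (H.sh t) k2 n2 (by omega))

/-- The additive map with values `A` on `c` and `B` on `b`. -/
def mk (c b : ℤ × ℤ) (A B : ℤ) : ℤ × ℤ →+ ℤ where
  toFun a := det a b * A + det c a * B
  map_zero' := by simp [det]
  map_add' x y := by
    simp only [det, Prod.fst_add, Prod.snd_add]
    ring

theorem mk_apply (c b a : ℤ × ℤ) (A B : ℤ) : mk c b A B a = det a b * A + det c a * B := rfl

theorem dec {c b : ℤ × ℤ} (h : det c b = 1) (a : ℤ × ℤ) : det a b • c + det c a • b = a := by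
  unfold det at *
  ext
  · simp only [Prod.fst_add, Prod.smul_fst, smul_eq_mul]
    linear_combination a.1 * h
  · simp only [Prod.snd_add, Prod.smul_snd, smul_eq_mul]
    linear_combination a.2 * h

theorem mk_comb {c b : ℤ × ℤ} (h : det c b = 1) (A B x y : ℤ) :
    mk c b A B (x • c + y • b) = x * A + y * B := by
  rw [mk_apply]
  unfold det at *
  simp only [Prod.fst_add, Prod.snd_add, Prod.smul_fst, Prod.smul_snd, smul_eq_mul]
  linear_combination (x * A + y * B) * h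

theorem det_comb {c b : ℤ × ℤ} (h : det c b = 1) (x y x' y' : ℤ) :
    det (x • c + y • b) (x' • c + y' • b) = x * y' - y * x' := by
  unfold det at *
  simp only [Prod.fst_add, Prod.snd_add, Prod.smul_fst, Prod.smul_snd, smul_eq_mul]
  linear_combination (x * y' - y * x') * h

theorem sup {D : ℤ × ℤ → ℕ} (hD : Nrm D) {a b : ℤ × ℤ} (h : det a b = 1) :
    ∃ p : ℤ × ℤ →+ ℤ, (∀ c, p c ≤ (D c : ℤ)) ∧ p a = D a := by
  obtain ⟨p, h1, h2, -⟩ := pk_LatA D hD a b (Or.inl h)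
  refine ⟨PkLatBP.ev p.1 p.2, fun c => ?_, h2⟩
  have := h1 c
  simp only at this
  show p.1 * c.1 + p.2 * c.2 ≤ (D c : ℤ)
  exact_mod_cast this

theorem prim {D : ℤ × ℤ → ℕ} (hD : Nrm D) {η : ℤ × ℤ →+ ℤ}
    (h2 : ∀ c, c ≠ 0 → η c + 2 ≤ (D c : ℤ)) {c : ℤ × ℤ} (hc : c ≠ 0) (h : (D c : ℤ) ≤ η c + 2) :
    ∃ b, det c b = 1 := by
  have hg : 0 < Int.gcd c.1 c.2 := by
    rw [Int.gcd_pos_iff]
    by_contra h
    push Not at h
    exact hc (Prod.ext h.1 h.2)
  obtain ⟨m, n, hmn, h1, h1'⟩ := Int.exists_gcd_one hg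
  have e : c = ((Int.gcd c.1 c.2 : ℕ) : ℤ) • ((m, n) : ℤ × ℤ) := by
    ext
    · simp only [Prod.smul_fst, smul_eq_mul]
      rw [mul_comm]
      exact h1
    · simp only [Prod.smul_snd, smul_eq_mul]
      rw [mul_comm]
      exact h1'
  have hne : ((m, n) : ℤ × ℤ) ≠ 0 := by
    intro h0
    rw [h0, smul_zero] at e
    exact hc e
  have h3 := hD.smul ((Int.gcd c.1 c.2 : ℕ) : ℤ) (m, n)
  rw [← e, Int.natAbs_natCast] at h3
  have h4 : η c = ((Int.gcd c.1 c.2 : ℕ) : ℤ) * η (m, n) := by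
    conv_lhs => rw [e]
    rw [map_zsmul, smul_eq_mul]
  have h5 := h2 _ hne
  have h6 : (D c : ℤ) = ((Int.gcd c.1 c.2 : ℕ) : ℤ) * (D (m, n) : ℤ) := by exact_mod_cast h3
  have h7 : Int.gcd c.1 c.2 = 1 := by
    by_contra h8
    have h9 : (2 : ℤ) ≤ ((Int.gcd c.1 c.2 : ℕ) : ℤ) := by omega
    nlinarith
  refine ⟨(-(Int.gcdB c.1 c.2), Int.gcdA c.1 c.2), ?_⟩
  have := Int.gcd_eq_gcd_ab c.1 c.2
  rw [h7] at this
  unfold det
  simp only
  push_cast at this
  linarith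

end Lat2P

open Lat2P in
/-- Depth two: an even point with two independent classes of slack two. -/
theorem lat2 {D : ℤ × ℤ → ℕ} (hD : Nrm D)
    (H2 : ∀ η : ℤ × ℤ →+ ℤ, (∀ a, Even (η a)) → (∀ a, η a ≤ (D a : ℤ)) →
      ∀ c, c ≠ 0 → η c + 2 ≤ (D c : ℤ)) :
    ∃ η : ℤ × ℤ →+ ℤ, (∀ a, Even (η a)) ∧ (∀ a, η a ≤ (D a : ℤ)) ∧
      ∃ c1 c2, det c1 c2 ≠ 0 ∧ (D c1 : ℤ) = η c1 + 2 ∧ (D c2 : ℤ) = η c2 + 2 := by
  obtain ⟨η, hev, hle, c, hc, hcl⟩ := pk_PLat (pk_LatB pk_LatA) D hD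
  obtain ⟨b, hb⟩ := prim hD (H2 η hev hle) hc hcl
  have hce : (D c : ℤ) = η c + 2 := le_antisymm hcl (H2 η hev hle c hc)
  obtain ⟨V, hV, hVc⟩ := sup hD hb
  have lin : ∀ (p : ℤ × ℤ →+ ℤ) (x y : ℤ), p (x • c + y • b) = x * p c + y * p b := by
    intro p x y
    rw [map_add, map_zsmul, map_zsmul, smul_eq_mul, smul_eq_mul]
  have evc : Even (V c) := by
    rw [hVc, hce]
    exact (hev c).add even_two
  have evmk : ∀ A B : ℤ, Even A → Even B → ∀ a, Even (mk c b A B a) := fun A B hA hB a => by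
    rw [mk_apply]
    exact (hA.mul_left _).add (hB.mul_left _)
  have odb : Odd (V b) := by
    by_contra ho
    have := H2 V (fun a => by
      rw [← dec hb a, lin]
      exact (evc.mul_left _).add ((Int.not_odd_iff_even.mp ho).mul_left _)) hV c hc
    omega
  set F : ℤ → ℤ → ℤ := fun x y => (D (x • c + y • b) : ℤ) - x * V c - y * V b with hF
  have kp : ∀ p : ℤ × ℤ →+ ℤ, (∀ a, p a ≤ (D a : ℤ)) → K F (V c - p c) (p b - V b) := by
    intro p hp x y
    have := hp (x • c + y • b)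
    rw [lin] at this
    simp only [hF]
    linarith
  have pk : ∀ s w, K F s w → ∀ a, mk c b (V c - s) (V b + w) a ≤ (D a : ℤ) := by
    intro s w h a
    have := h (det a b) (det c a)
    simp only [hF] at this
    rw [dec hb a] at this
    rw [mk_apply]
    linarith
  have H : Hy F := by
    refine ⟨fun x y x' y' h => ?_, fun s w hs hw h x y hxy => ?_, by simpa using kp V hV, ?_⟩
    · obtain ⟨p, h1, h2⟩ := sup hD ((det_comb hb x y x' y').trans h)
      refine ⟨_, _, kp p h1, ?_⟩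
      rw [lin] at h2
      simp only [hF]
      linarith
    · have := H2 _ (evmk _ _ (evc.sub hs) (odb.add_odd hw)) (pk s w h) (x • c + y • b) (by
        intro h0
        have e1 := mk_comb hb 1 0 x y
        have e2 := mk_comb hb 0 1 x y
        rw [h0, map_zero] at e1 e2
        omega)
      rw [mk_comb hb] at this
      simp only [hF]
      linarith
    · simp [hF, hVc]
  have k2 : K F 2 (η b - V b) := by
    have := kp η hle
    rwa [show V c - η c = 2 by omega] at this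
  obtain ⟨s, w, x, y, x', y', hs, hw, hk, hd, e1, e2⟩ := gd H ((hev b).sub_odd odb) k2
  simp only [hF] at e1 e2
  refine ⟨mk c b (V c - s) (V b + w), evmk _ _ (evc.sub hs) (odb.add_odd hw), pk s w hk,
    x • c + y • b, x' • c + y' • b, by rwa [det_comb hb], ?_, ?_⟩
  · rw [mk_comb hb]
    linarith
  · rw [mk_comb hb]
    linarith

/-- The three cases of the depth. -/
theorem lat3 {D : ℤ × ℤ → ℕ} (hD : Nrm D) :
    ∃ η : ℤ × ℤ →+ ℤ, (∀ a, Even (η a)) ∧
      (((∀ a, η a ≤ (D a : ℤ)) ∧ ∃ c, c ≠ 0 ∧ (D c : ℤ) = η c) ∨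
        ((∀ a, a ≠ 0 → η a + 1 ≤ (D a : ℤ)) ∧ ∃ c, c ≠ 0 ∧ (D c : ℤ) = η c + 1) ∨
        ((∀ a, a ≠ 0 → η a + 2 ≤ (D a : ℤ)) ∧
          ∃ c1 c2, det c1 c2 ≠ 0 ∧ (D c1 : ℤ) = η c1 + 2 ∧ (D c2 : ℤ) = η c2 + 2)) := by
  by_cases h0 : ∃ η : ℤ × ℤ →+ ℤ, (∀ a, Even (η a)) ∧ (∀ a, η a ≤ (D a : ℤ)) ∧
      ∃ c, c ≠ 0 ∧ (D c : ℤ) = η c
  · obtain ⟨η, h1, h2, h3⟩ := h0
    exact ⟨η, h1, Or.inl ⟨h2, h3⟩⟩
  have n0 : ∀ η : ℤ × ℤ →+ ℤ, (∀ a, Even (η a)) → (∀ a, η a ≤ (D a : ℤ)) →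
      ∀ c, c ≠ 0 → η c + 1 ≤ (D c : ℤ) := by
    intro η h1 h2 c hc
    by_contra h
    exact h0 ⟨η, h1, h2, c, hc, by have := h2 c; omega⟩
  by_cases h1 : ∃ η : ℤ × ℤ →+ ℤ, (∀ a, Even (η a)) ∧ (∀ a, η a ≤ (D a : ℤ)) ∧
      ∃ c, c ≠ 0 ∧ (D c : ℤ) = η c + 1
  · obtain ⟨η, a1, a2, a3⟩ := h1
    exact ⟨η, a1, Or.inr (Or.inl ⟨n0 η a1 a2, a3⟩)⟩
  have n1 : ∀ η : ℤ × ℤ →+ ℤ, (∀ a, Even (η a)) → (∀ a, η a ≤ (D a : ℤ)) →
      ∀ c, c ≠ 0 → η c + 2 ≤ (D c : ℤ) := by
    intro η a1 a2 c hc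
    by_contra h
    exact h1 ⟨η, a1, a2, c, hc, by have := n0 η a1 a2 c hc; omega⟩
  obtain ⟨η, a1, a2, a3⟩ := lat2 hD n1
  exact ⟨η, a1, Or.inr (Or.inr ⟨n1 η a1 a2, a3⟩)⟩

end Pool.Agent.P.MP_08fd93_co.FZ2
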