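import Pool.Agent.P.MP_08fd93_co.FZ.Bridge
import Pool.Agent.P.MP_08fd93_co.FZ2.Lat2

/-! Root data: the vertex at which the height function is rooted, in the three depths. -/

set_option autoImplicit false

namespace Pool.Agent.P.MP_08fd93_co.FZ2

open OV FZ PkDNP

variable {J : Type} {Γ : SimpleGraph (Vx J)}

/-- A geodesic line of class `c` whose period is the length of a shortest closed walk. -/
structure Ln (Γ : SimpleGraph (Vx J)) (c : ℤ × ℤ) (l : ℤ → Vx J) : Prop where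
  geo : Geo Γ l
  per : ∀ i, l (i + OV.DL Γ c) = tr c (l i)

theorem Ln.shift {c : ℤ × ℤ} {l : ℤ → Vx J} (h : Ln Γ c l) (k : ℤ) :
    Ln Γ c fun i => l (i + k) := by
  refine ⟨⟨fun i => ?_, fun i j => ?_⟩, fun i => ?_⟩
  · have := h.geo.adj (i + k)
    rwa [add_right_comm] at this
  · rw [h.geo.dist]
    congr 1
    ring
  · show l (i + _ + k) = _
    rw [add_right_comm, h.per]

theorem Ln.mv (hF : Fine Γ) {c : ℤ × ℤ} {l : ℤ → Vx J} (h : Ln Γ c l) (a : ℤ × ℤ) :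
    Ln Γ c fun i => tr a (l i) := by
  refine ⟨h.geo.tr hF a, fun i => ?_⟩
  show tr a (l _) = _
  rw [h.per, OV.tr_tr, OV.tr_tr, add_comm]

/-- Distances from a translate of a point of the line. -/
theorem Ln.dist_mv {c : ℤ × ℤ} {l : ℤ → Vx J} (h : Ln Γ c l) (q i j : ℤ) :
    Γ.dist (tr (q • c) (l i)) (l j) = (i + q * OV.DL Γ c - j).natAbs := by
  rw [← l_mul h.per, h.geo.dist]

theorem ln_ex [Fintype J] (hJ : Nonempty J) (hG : Good Γ) {c : ℤ × ℤ} (hc : c ≠ 0) :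
    ∃ l, Ln Γ c l := by
  obtain ⟨x, hx⟩ := dl_ex (Γ := Γ) hJ c
  obtain ⟨l, h1, -, h2⟩ := geo_of_good hJ hG hc hx
  exact ⟨l, h1, h2⟩

/-- Two lines of independent classes with a common vertex before which they are disjoint. -/
theorem root2 [Fintype J] (hJ : Nonempty J) (hG : Good Γ) {c1 c2 : ℤ × ℤ} (hd : det c1 c2 ≠ 0) :
    ∃ l1 l2, Ln Γ c1 l1 ∧ Ln Γ c2 l2 ∧ l1 0 = l2 0 ∧ ∀ s t, s < 0 → l1 s ≠ l2 t ∨ 0 < t := by
  obtain ⟨hF, hN⟩ := all_Nrm J Γ hJ hG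
  have h1 : c1 ≠ 0 := by rintro rfl; simp [det] at hd
  have h2 : c2 ≠ 0 := by rintro rfl; simp [det] at hd
  obtain ⟨l, hl⟩ := ln_ex hJ hG h1
  obtain ⟨m, hm⟩ := ln_ex hJ hG h2
  have p1 : 0 < OV.DL Γ c1 := by have := hN.ge c1 h1; omega
  have p2 : 0 < OV.DL Γ c2 := by have := hN.ge c2 h2; omega
  obtain ⟨M, M0, hM⟩ := l_bdd p1 hl.per (p := c1) (by simp only [det]; ring)
  obtain ⟨N, N0, hN'⟩ := l_bdd p2 hm.per (p := c2) (by simp only [det]; ring)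
  obtain ⟨_, ⟨i, rfl⟩, _, ⟨j, rfl⟩, e⟩ := pk_Cross J Γ hF c1 c2 (Set.range l) (Set.range m) (M + N)
    hd (l_conn hl.geo.adj) (l_conn hm.geo.adj) ⟨_, 0, rfl⟩ ⟨_, 0, rfl⟩ (l_per hl.per)
    (l_per hm.per) (fun z hz => (hM z hz).trans (by omega))
    (fun z hz => (hN' z hz).trans (by omega))
  have e1 : l i = tr ((l i).2 - (m j).2) (m j) := Prod.ext e (by simp [tr])
  obtain ⟨k, hk, ek⟩ : ∃ k, Ln Γ c2 k ∧ l i = k i :=
    ⟨_, (hm.shift (j - i)).mv hF ((l i).2 - (m j).2), by simpa using e1⟩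
  obtain ⟨B, hB⟩ := ((Set.finite_Ico (0 : ℤ) (OV.DL Γ c2)).image
    (fun r => |det c1 (k r).2|)).bddAbove
  have p2' : (0 : ℤ) < OV.DL Γ c2 := by omega
  obtain ⟨t0, ht0, hmin⟩ := Int.exists_least_of_bdd (P := fun t => l t = k t)
    ⟨-(M + B) * OV.DL Γ c2, fun t ht => by
      have a1 := hM _ ⟨t, rfl⟩
      have a2 : |det c1 (k (t % OV.DL Γ c2)).2| ≤ B :=
        hB ⟨_, ⟨Int.emod_nonneg _ p2'.ne', Int.emod_lt_of_pos _ p2'⟩, rfl⟩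
      have a3 := Int.emod_add_ediv_mul t (OV.DL Γ c2)
      have a4 : det c1 (l t).2 =
          det c1 (k (t % OV.DL Γ c2)).2 + t / OV.DL Γ c2 * det c1 c2 := by
        rw [ht]
        conv_lhs => rw [← a3, l_mul hk.per]
        simp only [det, tr, Prod.fst_add, Prod.snd_add, Prod.smul_fst, Prod.smul_snd,
          smul_eq_mul]
        ring
      have a5 : |t / OV.DL Γ c2 * det c1 c2| ≤ M + B := by
        rw [abs_le] at a1 a2 ⊢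
        constructor <;> linarith [a1.1, a1.2, a2.1, a2.2]
      rw [abs_mul] at a5
      have a6 : 1 ≤ |det c1 c2| := Int.one_le_abs hd
      have a7 : |t / OV.DL Γ c2| ≤ M + B := by nlinarith [abs_nonneg (t / (OV.DL Γ c2 : ℤ))]
      have a8 := Int.emod_nonneg t p2'.ne'
      nlinarith [(abs_le.1 a7).1]⟩ ⟨i, ek⟩
  refine ⟨_, _, hl.shift t0, hk.shift t0, by simpa using ht0, fun s t hs => ?_⟩
  by_contra hn
  push Not at hn
  have d1 := hl.geo.dist (s + t0) t0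
  have d2 := hk.geo.dist (t + t0) t0
  rw [hn.1, ht0, d2] at d1
  obtain rfl : s = t := by omega
  have := hmin _ hn.1
  omega

/-- The root data in the three depths. -/
theorem root3 [Fintype J] (hJ : Nonempty J) (hG : Good Γ) :
    ∃ η : ℤ × ℤ →+ ℤ, (∀ a, Even (η a)) ∧
      (((∀ a, η a ≤ (OV.DL Γ a : ℤ)) ∧ ∃ c l, c ≠ 0 ∧ Ln Γ c l ∧ (OV.DL Γ c : ℤ) = η c) ∨
        ((∀ a, a ≠ 0 → η a + 1 ≤ (OV.DL Γ a : ℤ)) ∧
          ∃ c l, c ≠ 0 ∧ Ln Γ c l ∧ (OV.DL Γ c : ℤ) = η c + 1) ∨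
        ((∀ a, a ≠ 0 → η a + 2 ≤ (OV.DL Γ a : ℤ)) ∧
          ∃ c1 c2 l1 l2, det c1 c2 ≠ 0 ∧ (OV.DL Γ c1 : ℤ) = η c1 + 2 ∧
            (OV.DL Γ c2 : ℤ) = η c2 + 2 ∧ Ln Γ c1 l1 ∧ Ln Γ c2 l2 ∧ l1 0 = l2 0 ∧
            ∀ s t, s < 0 → l1 s ≠ l2 t ∨ 0 < t)) := by
  obtain ⟨η, hev, h⟩ := lat3 (all_Nrm J Γ hJ hG).2
  refine ⟨η, hev, ?_⟩
  rcases h with ⟨h1, c, hc, h2⟩ | ⟨h1, c, hc, h2⟩ | ⟨h1, c1, c2, hd, h2, h3⟩
  · obtain ⟨l, hl⟩ := ln_ex hJ hG hc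
    exact Or.inl ⟨h1, c, l, hc, hl, h2⟩
  · obtain ⟨l, hl⟩ := ln_ex hJ hG hc
    exact Or.inr (Or.inl ⟨h1, c, l, hc, hl, h2⟩)
  · obtain ⟨l1, l2, h⟩ := root2 hJ hG hd
    exact Or.inr (Or.inr ⟨h1, c1, c2, l1, l2, hd, h2, h3, h⟩)

end Pool.Agent.P.MP_08fd93_co.FZ2
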